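import Mathlib
import Pool.Agent.Lib.MP_48c8f3_co.SDG

set_option autoImplicit false

namespace Pool.Agent.Results.MP_48c8f3_co.CompressedFamilies

open Finset

/-- First part: `A` is an increasing left-compressed family, `F` an arbitrary family, `L` the
lexicographic initial segment of size `|F|`, and `φ` the automorphism given by `σ` and `S`.
Then `|∂F| - |∂L| ≥ 2 (|F ∩ φ(A)| - |φ(L) ∩ φ(A)|)` and
`|F Δ φ(L)| ≤ (|∂F| - |∂L|) + 2 |F Δ φ(A)|`; so `F = φ(A)` gives `|F Δ φ(L)| ≤ |∂F| - |∂L|`.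
Second part: the last inequality is sharp for increasing left-compressed families. -/
theorem result :
    (∀ (n : ℕ) (F L A : Finset (Finset (Fin n))),
      (∀ x ∈ A, ∀ y, x ⊆ y → y ∈ A) →
      (∀ x ∈ A, ∀ i j : Fin n, i < j → j ∈ x → i ∉ x → insert i (x.erase j) ∈ A) →
      L.card = F.card →
      (∀ x ∈ L, ∀ y ∉ L, ∃ i ∈ x, i ∉ y ∧ ∀ j < i, (j ∈ x ↔ j ∈ y)) →
      ∀ (σ : Equiv.Perm (Fin n)) (S : Finset (Fin n)),
        2 * (((F ∩ A.image (fun x => symmDiff (x.map σ.toEmbedding) S)).card : ℤ) -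
            ((L.image (fun x => symmDiff (x.map σ.toEmbedding) S) ∩
              A.image (fun x => symmDiff (x.map σ.toEmbedding) S)).card : ℤ)) ≤
          (((F ×ˢ (Finset.univ : Finset (Fin n))).filter
              (fun p => symmDiff p.1 {p.2} ∉ F)).card : ℤ) -
            (((L ×ˢ (Finset.univ : Finset (Fin n))).filter
              (fun p => symmDiff p.1 {p.2} ∉ L)).card : ℤ) ∧
        ((symmDiff F (L.image (fun x => symmDiff (x.map σ.toEmbedding) S))).card : ℤ) ≤
          (((F ×ˢ (Finset.univ : Finset (Fin n))).filter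
              (fun p => symmDiff p.1 {p.2} ∉ F)).card : ℤ) -
            (((L ×ˢ (Finset.univ : Finset (Fin n))).filter
              (fun p => symmDiff p.1 {p.2} ∉ L)).card : ℤ) +
            2 * ((symmDiff F (A.image (fun x => symmDiff (x.map σ.toEmbedding) S))).card : ℤ)) ∧
    (∃ F L : Finset (Finset (Fin 3)),
      (∀ x ∈ F, ∀ y, x ⊆ y → y ∈ F) ∧
      (∀ x ∈ F, ∀ i j : Fin 3, i < j → j ∈ x → i ∉ x → insert i (x.erase j) ∈ F) ∧
      L.card = F.card ∧
      (∀ x ∈ L, ∀ y ∉ L, ∃ i ∈ x, i ∉ y ∧ ∀ j < i, (j ∈ x ↔ j ∈ y)) ∧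
      0 < (symmDiff F L).card ∧
      ((F ×ˢ (Finset.univ : Finset (Fin 3))).filter
              (fun p => symmDiff p.1 {p.2} ∉ F)).card =
        ((L ×ˢ (Finset.univ : Finset (Fin 3))).filter
              (fun p => symmDiff p.1 {p.2} ∉ L)).card + (symmDiff F L).card) := by
  refine ⟨?_, ?_⟩
  · intro n F L A hA1 hA2 hc hL σ S
    exact Pool.Agent.EdgeIso.SD.final hA1 hA2 hc hL σ S
  · refine ⟨Finset.univ.filter (fun x => 2 ≤ x.card), Finset.univ.filter (fun x => (0 : Fin 3) ∈ x),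
      by decide, by decide, by decide, ?_, by decide, by decide⟩
    intro x hx y hy
    exact ⟨0, (mem_filter.1 hx).2, fun h => hy (mem_filter.2 ⟨mem_univ _, h⟩),
      fun j hj => absurd hj (Fin.not_lt_zero j)⟩

end Pool.Agent.Results.MP_48c8f3_co.CompressedFamilies
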